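import Mathlib

set_option autoImplicit false

namespace Pool.Agent.Results.MP_a15e14_gt.Metric

abbrev E := EuclideanSpace ℝ (Fin 3)

/-- The `z`-axis. -/
def Z : Set E := {x | x 0 = 0 ∧ x 1 = 0}

/-- Distance to the `z`-axis. -/
noncomputable def d (x : E) : ℝ := √(x 0 ^ 2 + x 1 ^ 2)

/-- The point pair function of the complement of the `z`-axis. -/
noncomputable def p (x y : E) : ℝ := ‖x - y‖ / √(‖x - y‖ ^ 2 + 4 * d x * d y)

lemma d_pos {x : E} (h : x ∉ Z) : 0 < d x := by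
  refine Real.sqrt_pos.2 (lt_of_le_of_ne (by positivity) fun e => h ⟨?_, ?_⟩) <;> nlinarith

lemma refl_le (y z : E) :
    dist y !₂[-z 0, -z 1, z 2] ≤ √(‖y - z‖ ^ 2 + 4 * d y * d z) := by
  rw [EuclideanSpace.dist_eq, EuclideanSpace.real_norm_sq_eq]
  refine Real.sqrt_le_sqrt ?_
  have : y 0 * z 0 + y 1 * z 1 ≤ d y * d z := by
    rw [d, d, ← Real.sqrt_mul (by positivity)]
    exact Real.le_sqrt_of_sq_le (by nlinarith [sq_nonneg (y 0 * z 1 - y 1 * z 0)])
  simp [Fin.sum_univ_three, Real.dist_eq]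
  nlinarith

lemma alg {A B C P Q R a b c : ℝ} (hA : 0 ≤ A) (hB : 0 ≤ B) (hC : 0 ≤ C) (ha : 0 < a)
    (hb : 0 < b) (hc : 0 < c) (hP : 0 < P) (hQ : 0 < Q) (hR : 0 < R)
    (eP : P ^ 2 = A ^ 2 + 4 * a * c) (eQ : Q ^ 2 = B ^ 2 + 4 * c * b)
    (eR : R ^ 2 = C ^ 2 + 4 * a * b) (h : 2 * c * C ≤ A * Q + B * P) :
    C / R ≤ A / P + B / Q := by
  rw [div_add_div _ _ hP.ne' hQ.ne', div_le_div_iff₀ hR (by positivity)]
  set S := A * Q + P * B with hS
  have hS0 : 0 ≤ S := by positivity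
  have h1 : (2 * c * C) ^ 2 ≤ S ^ 2 := pow_le_pow_left₀ (by positivity) (by linarith) 2
  have h2 : (P * Q) ^ 2 ≤ S ^ 2 + 16 * a * b * c ^ 2 := by
    have : S ^ 2 + 16 * a * b * c ^ 2 = (P * Q + A * B) ^ 2 := by
      have e : 16 * a * b * c ^ 2 = (P ^ 2 - A ^ 2) * (Q ^ 2 - B ^ 2) := by rw [eP, eQ]; ring
      rw [e, hS]; ring
    rw [this]
    exact pow_le_pow_left₀ (by positivity) (by linarith [mul_nonneg hA hB]) 2
  refine (pow_le_pow_iff_left₀ (by positivity) (by positivity) two_ne_zero).1 ?_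
  calc (C * (P * Q)) ^ 2 = C ^ 2 * (P * Q) ^ 2 := by ring
    _ ≤ C ^ 2 * (S ^ 2 + 16 * a * b * c ^ 2) := by gcongr
    _ = C ^ 2 * S ^ 2 + 4 * a * b * (2 * c * C) ^ 2 := by ring
    _ ≤ C ^ 2 * S ^ 2 + 4 * a * b * S ^ 2 := by gcongr
    _ = (S * R) ^ 2 := by rw [mul_pow S R, eR]; ring

theorem result (x y z : E) (hx : x ∉ Z) (hy : y ∉ Z) (hz : z ∉ Z) : p x y ≤ p x z + p z y := by
  have a := d_pos hx
  have b := d_pos hy
  have c := d_pos hz
  refine alg (norm_nonneg _) (norm_nonneg _) (norm_nonneg _) a b c (by positivity) (by positivity)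
    (by positivity) (Real.sq_sqrt (by positivity)) (Real.sq_sqrt (by positivity))
    (Real.sq_sqrt (by positivity)) ?_
  have h := EuclideanGeometry.mul_dist_le_mul_dist_add_mul_dist x z y !₂[-z 0, -z 1, z 2]
  have e : dist z !₂[-z 0, -z 1, z 2] = 2 * d z := by
    rw [EuclideanSpace.dist_eq, Real.sqrt_eq_iff_mul_self_eq (by positivity) (by positivity),
      mul_mul_mul_comm, d, Real.mul_self_sqrt (by positivity)]
    simp [Fin.sum_univ_three, Real.dist_eq]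
    ring
  have h1 := refl_le x z
  have h2 := refl_le y z
  rw [norm_sub_rev y, mul_right_comm] at h2
  rw [e, dist_eq_norm, dist_eq_norm x z, dist_eq_norm z y] at h
  calc _ ≤ _ := (mul_comm _ _).trans_le h
    _ ≤ _ := by gcongr

end Pool.Agent.Results.MP_a15e14_gt.Metric
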